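import Pool.Agent.H242.GX.Stm3

/-!
# Project GX (MP_ae5b4e_an), statement S_TDIR: the tangent line does not meet the interior
-/

set_option autoImplicit false

open Set Filter Topology
open scoped ContDiff

namespace Pool.Agent.H117.GX.TDIR

open Pool.Agent.H242.GX

theorem gx_TDIR : S_TDIR := by
  intro K γ hKc hKx hKi hγ hr t ht
  have hmem : γ t ∈ frontier K := by rw [← hr]; exact mem_range_self t
  have hnot : γ t ∉ interior K := fun h => by
    have := disjoint_left.1 disjoint_interior_frontier h
    exact this hmem
  obtain ⟨f, hf⟩ := geometric_hahn_banach_open_point hKx.interior isOpen_interior hnot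
  have hfK : ∀ x ∈ K, f x ≤ f (γ t) := by
    intro x hx
    have hcl : closure (interior K) = K := by
      rw [hKx.closure_interior_eq_closure_of_nonempty_interior hKi, hKc.closure_eq]
    rw [← hcl] at hx
    exact le_on_closure (f := fun x => f x) (g := fun _ => f (γ t)) (fun y hy => (hf y hy).le)
      f.continuous.continuousOn continuousOn_const hx
  have hmax : IsLocalMax (fun s => f (γ s)) t := by
    refine Filter.Eventually.of_forall fun s => ?_
    apply hfK
    have hs : γ s ∈ frontier K := by rw [← hr]; exact mem_range_self s
    exact hKc.frontier_subset hs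
  have hd : HasDerivAt γ (deriv γ t) t :=
    ((hγ.differentiable (by simp)) t).hasDerivAt
  have hd2 : HasDerivAt (fun s => f (γ s)) (f (deriv γ t)) t :=
    f.hasFDerivAt.comp_hasDerivAt t hd
  have h0 : f (deriv γ t) = 0 := hmax.hasDerivAt_eq_zero hd2
  have hline : ∀ s : ℝ, γ t + s • deriv γ t ∉ interior K := by
    intro s hs
    have h1 := hf _ hs
    rw [map_add, map_smul, h0, smul_zero, add_zero] at h1
    exact lt_irrefl _ h1
  exact ⟨ht, hline⟩

end Pool.Agent.H117.GX.TDIR
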